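import Mathlib

/-!
# Two exponential-logarithmic towers without a common upper bound

Full (negative) answer of Q1 of MP_21d915_nt.

Writing the base as `c = e ^ s`, all elements of all towers are values `f(s)` of a countable family
of analytic functions `f`, each defined on an open connected set. For `a` outside the countable set
of constant values of the family, `a` lies in the towers of only countably many bases, and these
towers have a countable union.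
-/

open Set Topology

namespace Pool.Agent.Results.MP_21d915_nt.NoCommonTower

/-- The algebraic closure in `ℂ` of the subfield generated by `S`. -/
def algCl (S : Set ℂ) : Set ℂ := {z | IsAlgebraic (Subfield.closure S) z}

/-- `b ^ x = e ^ (x ln b)`, with the principal value `ln b`. -/
noncomputable def pw (b x : ℂ) : ℂ := Complex.exp (x * Complex.log b)

/-- `EL_n` for the base `b`: `EL_0 = ℚ`, and `EL_{n+1}` is the algebraic closure of the field
generated by `EL_n`, the powers `b ^ x`, `x ∈ EL_n`, and the numbers `w` with `b ^ w ∈ EL_n`. -/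
noncomputable def EL (b : ℂ) : ℕ → Set ℂ
  | 0 => Set.range ((↑) : ℚ → ℂ)
  | n + 1 => algCl (EL b n ∪ {y | ∃ x ∈ EL b n, y = pw b x} ∪ {w | pw b w ∈ EL b n})

/-- The exponential-logarithmic tower with base `b`. -/
def Tower (b : ℂ) : Set ℂ := ⋃ n, EL b n

/-! ### Analytic discs -/

/-- A set together with a function. -/
abbrev Disc := Set ℂ × (ℂ → ℂ)

/-- open connected domain, analytic function -/
def GoodDisc (d : Disc) : Prop := IsOpen d.1 ∧ IsPreconnected d.1 ∧ AnalyticOnNhd ℂ d.2 d.1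

/-- values at `s` -/
def Val (G : Set Disc) (s : ℂ) : Set ℂ := {x | ∃ d ∈ G, s ∈ d.1 ∧ d.2 s = x}

lemma Val.mono {G H : Set Disc} (h : G ⊆ H) (s : ℂ) : Val G s ⊆ Val H s :=
  fun _ ⟨d, hd, h1⟩ => ⟨d, h hd, h1⟩

/-- the local form of the implicit function theorem -/
def Reg (F : ℂ × ℂ → ℂ) (z : ℂ × ℂ) : Prop :=
  F z = 0 ∧ AnalyticAt ℂ F z ∧ ∃ c : ℂ, c ≠ 0 ∧ HasDerivAt (fun x => F (z.1, x)) c z.2

open scoped ContDiff in
lemma local_disc (F : ℂ × ℂ → ℂ) (z : ℂ × ℂ) (h : Reg F z) :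
    ∃ U ∈ 𝓝 z, ∃ d : Disc, GoodDisc d ∧ ∀ v ∈ U, F v = 0 → v.1 ∈ d.1 ∧ d.2 v.1 = v.2 := by
  obtain ⟨h0, hF, c, hc, hd⟩ := h
  have hcd : ContDiffAt ℂ ω F z := hF.contDiffAt
  have hinr : (fderiv ℂ F z ∘L .inr ℂ ℂ ℂ) = ContinuousLinearMap.toSpanSingleton ℂ c := by
    have h1 : HasFDerivAt F (fderiv ℂ F z) z := hF.differentiableAt.hasFDerivAt
    have h2 : HasFDerivAt (fun x : ℂ => (z.1, x)) (ContinuousLinearMap.inr ℂ ℂ ℂ) z.2 :=
      hasFDerivAt_prodMk_right z.1 z.2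
    have h3 : HasFDerivAt (fun x => F (z.1, x)) (fderiv ℂ F z ∘L .inr ℂ ℂ ℂ) z.2 :=
      HasFDerivAt.comp z.2 (by exact h1) h2
    exact h3.unique hd.hasFDerivAt
  have hinv : (fderiv ℂ F z ∘L .inr ℂ ℂ ℂ).IsInvertible := by
    rw [hinr]
    refine ⟨ContinuousLinearEquiv.smulLeft (Units.mk0 c hc), ?_⟩
    ext
    simp
  set f := hcd.implicitFunction (by simp) hinv with hf
  have h1 := hcd.eventually_apply_eq_iff_implicitFunction (by simp) hinv
  have h2 := (hcd.contDiffAt_implicitFunction (by simp) hinv).analyticAt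
  obtain ⟨r, hr, hball⟩ := Metric.eventually_nhds_iff_ball.1 h2.eventually_analyticAt
  refine ⟨{v | (F v = F z ↔ f v.1 = v.2)} ∩ (Prod.fst ⁻¹' Metric.ball z.1 r), ?_,
    ⟨Metric.ball z.1 r, f⟩, ⟨Metric.isOpen_ball, (convex_ball _ _).isPreconnected, hball⟩, ?_⟩
  · refine Filter.inter_mem h1 ?_
    exact continuous_fst.continuousAt.preimage_mem_nhds (Metric.ball_mem_nhds _ hr)
  · rintro v ⟨hv1, hv2⟩ hv0
    exact ⟨hv2, hv1.1 (by rw [hv0, h0])⟩

lemma cover (F : ℂ × ℂ → ℂ) (Z : Set (ℂ × ℂ)) (h : ∀ z ∈ Z, Reg F z) :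
    ∃ H : Set Disc, H.Countable ∧ (∀ d ∈ H, GoodDisc d) ∧ ∀ z ∈ Z, z.2 ∈ Val H z.1 := by
  choose! U hU d hd hUd using fun z (hz : z ∈ Z) => local_disc F z (h z hz)
  obtain ⟨t, htZ, htc, hcov⟩ := TopologicalSpace.countable_cover_nhdsWithin (s := Z) (f := U)
    (fun z hz => mem_nhdsWithin_of_mem_nhds (hU z hz))
  refine ⟨d '' t, htc.image d, ?_, ?_⟩
  · rintro _ ⟨z, hz, rfl⟩
    exact hd z (htZ hz)
  · intro z hz
    obtain ⟨w, hw, hzw⟩ := mem_iUnion₂.1 (hcov hz)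
    have := hUd w (htZ hw) z hzw (h z hz).1
    exact ⟨d w, mem_image_of_mem d hw, this.1, this.2⟩

lemma cover_family {ι : Type*} [Countable ι] (F : ι → ℂ × ℂ → ℂ) (Z : ι → Set (ℂ × ℂ))
    (h : ∀ i, ∀ z ∈ Z i, Reg (F i) z) :
    ∃ H : Set Disc, H.Countable ∧ (∀ d ∈ H, GoodDisc d) ∧ ∀ i, ∀ z ∈ Z i, z.2 ∈ Val H z.1 := by
  choose H hH hHd hHZ using fun i => cover (F i) (Z i) (h i)
  refine ⟨⋃ i, H i, countable_iUnion hH, ?_, ?_⟩
  · intro d hd
    obtain ⟨i, hi⟩ := mem_iUnion.1 hd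
    exact hHd i d hi
  · intro i z hz
    exact Val.mono (subset_iUnion H i) _ (hHZ i z hz)

/-- closure properties -/
structure Step (G G' : Set Disc) : Prop where
  sub : G ⊆ G'
  one : ∀ s, (1 : ℂ) ∈ Val G' s
  add : ∀ s x y, x ∈ Val G s → y ∈ Val G s → x - y ∈ Val G' s
  mul : ∀ s x y, x ∈ Val G s → y ∈ Val G s → x * y ∈ Val G' s
  inv : ∀ s x, x ∈ Val G s → x ≠ 0 → x⁻¹ ∈ Val G' s
  exp : ∀ s x, x ∈ Val G s → Complex.exp (x * s) ∈ Val G' s
  log : ∀ s w, s ≠ 0 → Complex.exp (w * s) ∈ Val G s → w ∈ Val G' s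
  root : ∀ (s : ℂ) (p : Polynomial ℂ) (w : ℂ), (∀ i, p.coeff i ∈ Val G s) → p.eval w = 0 →
    p.derivative.eval w ≠ 0 → w ∈ Val G' s

lemma exists_step (G : Set Disc) (hG : G.Countable) (hgood : ∀ d ∈ G, GoodDisc d) :
    ∃ G' : Set Disc, G'.Countable ∧ (∀ d ∈ G', GoodDisc d) ∧ Step G G' := by
  have : Countable G := hG.to_subtype
  -- differences
  obtain ⟨H1, h1c, h1g, h1⟩ := cover_family (ι := G × G)
    (fun i z => z.2 - (i.1.1.2 z.1 - i.2.1.2 z.1))
    (fun i => {z | z.1 ∈ i.1.1.1 ∧ z.1 ∈ i.2.1.1 ∧ z.2 = i.1.1.2 z.1 - i.2.1.2 z.1}) (by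
      rintro ⟨⟨d, hd⟩, ⟨e, he⟩⟩ z ⟨hz1, hz2, hz3⟩
      have had := (hgood d hd).2.2 _ hz1
      have hae := (hgood e he).2.2 _ hz2
      refine ⟨by simp [hz3], ?_, 1, one_ne_zero, ?_⟩
      · exact analyticAt_snd.sub ((had.fun_comp analyticAt_fst).sub (hae.fun_comp analyticAt_fst))
      · exact (hasDerivAt_id' z.2).sub_const (d.2 z.1 - e.2 z.1))
  -- products
  obtain ⟨H2, h2c, h2g, h2⟩ := cover_family (ι := G × G)
    (fun i z => z.2 - (i.1.1.2 z.1 * i.2.1.2 z.1))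
    (fun i => {z | z.1 ∈ i.1.1.1 ∧ z.1 ∈ i.2.1.1 ∧ z.2 = i.1.1.2 z.1 * i.2.1.2 z.1}) (by
      rintro ⟨⟨d, hd⟩, ⟨e, he⟩⟩ z ⟨hz1, hz2, hz3⟩
      have had := (hgood d hd).2.2 _ hz1
      have hae := (hgood e he).2.2 _ hz2
      refine ⟨by simp [hz3], ?_, 1, one_ne_zero, ?_⟩
      · exact analyticAt_snd.sub ((had.fun_comp analyticAt_fst).mul (hae.fun_comp analyticAt_fst))
      · exact (hasDerivAt_id' z.2).sub_const (d.2 z.1 * e.2 z.1))
  -- inverses
  obtain ⟨H3, h3c, h3g, h3⟩ := cover_family (ι := G)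
    (fun i z => z.2 - (i.1.2 z.1)⁻¹)
    (fun i => {z | z.1 ∈ i.1.1 ∧ i.1.2 z.1 ≠ 0 ∧ z.2 = (i.1.2 z.1)⁻¹}) (by
      rintro ⟨d, hd⟩ z ⟨hz1, hz2, hz3⟩
      have had := (hgood d hd).2.2 _ hz1
      refine ⟨by simp [hz3], ?_, 1, one_ne_zero, ?_⟩
      · exact analyticAt_snd.sub ((had.fun_comp analyticAt_fst).inv hz2)
      · exact (hasDerivAt_id' z.2).sub_const (d.2 z.1)⁻¹)
  -- exponentials
  obtain ⟨H4, h4c, h4g, h4⟩ := cover_family (ι := G)
    (fun i z => z.2 - Complex.exp (i.1.2 z.1 * z.1))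
    (fun i => {z | z.1 ∈ i.1.1 ∧ z.2 = Complex.exp (i.1.2 z.1 * z.1)}) (by
      rintro ⟨d, hd⟩ z ⟨hz1, hz3⟩
      have had := (hgood d hd).2.2 _ hz1
      refine ⟨by simp [hz3], ?_, 1, one_ne_zero, ?_⟩
      · exact analyticAt_snd.sub (((had.fun_comp analyticAt_fst).mul analyticAt_fst).cexp)
      · exact (hasDerivAt_id' z.2).sub_const (Complex.exp (d.2 z.1 * z.1)))
  -- logarithms
  obtain ⟨H5, h5c, h5g, h5⟩ := cover_family (ι := G)
    (fun i z => Complex.exp (z.2 * z.1) - i.1.2 z.1)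
    (fun i => {z | z.1 ∈ i.1.1 ∧ z.1 ≠ 0 ∧ Complex.exp (z.2 * z.1) = i.1.2 z.1}) (by
      rintro ⟨d, hd⟩ z ⟨hz1, hz2, hz3⟩
      have had := (hgood d hd).2.2 _ hz1
      refine ⟨by simp [hz3], ?_, Complex.exp (z.2 * z.1) * (1 * z.1),
        mul_ne_zero (Complex.exp_ne_zero _) (by simpa using hz2), ?_⟩
      · exact ((analyticAt_snd.mul analyticAt_fst).cexp).sub (had.fun_comp analyticAt_fst)
      · exact (((hasDerivAt_id' z.2).mul_const z.1).cexp).sub_const (d.2 z.1))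
  -- simple roots
  obtain ⟨H6, h6c, h6g, h6⟩ := cover_family (ι := Σ n : ℕ, (Fin n → G))
    (fun i z => ∑ j : Fin i.1, (i.2 j).1.2 z.1 * z.2 ^ (j : ℕ))
    (fun i => {z | (∀ j, z.1 ∈ (i.2 j).1.1) ∧ Reg
      (fun z => ∑ j : Fin i.1, (i.2 j).1.2 z.1 * z.2 ^ (j : ℕ)) z}) (by
      rintro ⟨n, c⟩ z ⟨hz1, hz2⟩
      exact hz2)
  refine ⟨G ∪ {(univ, fun _ => 1)} ∪ H1 ∪ H2 ∪ H3 ∪ H4 ∪ H5 ∪ H6, ?_, ?_, ?_⟩
  · exact (((((((hG.union (countable_singleton _)).union h1c).union h2c).union h3c).union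
      h4c).union h5c).union h6c)
  · rintro d (((((((hd | hd) | hd) | hd) | hd) | hd) | hd) | hd)
    · exact hgood d hd
    · rw [mem_singleton_iff] at hd
      subst hd
      exact ⟨isOpen_univ, isPreconnected_univ, analyticOnNhd_const⟩
    · exact h1g d hd
    · exact h2g d hd
    · exact h3g d hd
    · exact h4g d hd
    · exact h5g d hd
    · exact h6g d hd
  · have s0 : G ⊆ G ∪ {(univ, fun _ => 1)} ∪ H1 ∪ H2 ∪ H3 ∪ H4 ∪ H5 ∪ H6 := by
      intro d hd; simp [hd]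
    have s1 : H1 ⊆ G ∪ {(univ, fun _ => 1)} ∪ H1 ∪ H2 ∪ H3 ∪ H4 ∪ H5 ∪ H6 := by
      intro d hd; simp [hd]
    have s2 : H2 ⊆ G ∪ {(univ, fun _ => 1)} ∪ H1 ∪ H2 ∪ H3 ∪ H4 ∪ H5 ∪ H6 := by
      intro d hd; simp [hd]
    have s3 : H3 ⊆ G ∪ {(univ, fun _ => 1)} ∪ H1 ∪ H2 ∪ H3 ∪ H4 ∪ H5 ∪ H6 := by
      intro d hd; simp [hd]
    have s4 : H4 ⊆ G ∪ {(univ, fun _ => 1)} ∪ H1 ∪ H2 ∪ H3 ∪ H4 ∪ H5 ∪ H6 := by
      intro d hd; simp [hd]
    have s5 : H5 ⊆ G ∪ {(univ, fun _ => 1)} ∪ H1 ∪ H2 ∪ H3 ∪ H4 ∪ H5 ∪ H6 := by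
      intro d hd; simp [hd]
    have s6 : H6 ⊆ G ∪ {(univ, fun _ => 1)} ∪ H1 ∪ H2 ∪ H3 ∪ H4 ∪ H5 ∪ H6 := by
      intro d hd; simp [hd]
    refine ⟨s0, ?_, ?_, ?_, ?_, ?_, ?_, ?_⟩
    · intro s
      exact ⟨(univ, fun _ => 1), by simp, mem_univ _, rfl⟩
    · rintro s x y ⟨d, hd, hs, rfl⟩ ⟨e, he, hs', rfl⟩
      exact Val.mono s1 s (h1 (⟨d, hd⟩, ⟨e, he⟩) (s, d.2 s - e.2 s) ⟨hs, hs', rfl⟩)
    · rintro s x y ⟨d, hd, hs, rfl⟩ ⟨e, he, hs', rfl⟩
      exact Val.mono s2 s (h2 (⟨d, hd⟩, ⟨e, he⟩) (s, d.2 s * e.2 s) ⟨hs, hs', rfl⟩)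
    · rintro s x ⟨d, hd, hs, rfl⟩ hx
      exact Val.mono s3 s (h3 ⟨d, hd⟩ (s, (d.2 s)⁻¹) ⟨hs, hx, rfl⟩)
    · rintro s x ⟨d, hd, hs, rfl⟩
      exact Val.mono s4 s (h4 ⟨d, hd⟩ (s, Complex.exp (d.2 s * s)) ⟨hs, rfl⟩)
    · rintro s w hs0 ⟨d, hd, hs, hx⟩
      exact Val.mono s5 s (h5 ⟨d, hd⟩ (s, w) ⟨hs, hs0, hx.symm⟩)
    · intro s p w hp h0 h1
      choose d hd hs hx using hp
      have hF : (fun x => ∑ j : Fin (p.natDegree + 1), (d j).2 s * x ^ (j : ℕ)) =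
          fun x => p.eval x := by
        ext x
        rw [Polynomial.eval_eq_sum_range, Finset.sum_range]
        exact Finset.sum_congr rfl fun j _ => by rw [hx]
      refine Val.mono s6 s (h6 ⟨p.natDegree + 1, fun j => ⟨d j, hd j⟩⟩ (s, w) ⟨?_, ?_, ?_, ?_⟩)
      · intro j; exact hs j
      · exact (congrFun hF w).trans h0
      · refine Finset.analyticAt_fun_sum _ fun j _ => ?_
        exact (((hgood _ (hd j)).2.2 _ (hs j)).fun_comp analyticAt_fst).mul (analyticAt_snd.pow _)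
      · refine ⟨p.derivative.eval w, h1, ?_⟩
        show HasDerivAt (fun x => ∑ j : Fin (p.natDegree + 1), (d j).2 s * x ^ (j : ℕ)) _ w
        rw [hF]
        exact p.hasDerivAt w

/-- the whole family -/
lemma exists_family : ∃ G : Set Disc, G.Countable ∧ (∀ d ∈ G, GoodDisc d) ∧ Step G G := by
  choose! f hfc hfg hfs using exists_step
  let S : ℕ → Set Disc := fun n => Nat.rec ∅ (fun _ G => f G) n
  have hS : ∀ n, (S n).Countable ∧ ∀ d ∈ S n, GoodDisc d := by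
    intro n
    induction n with
    | zero => exact ⟨countable_empty, by simp [S]⟩
    | succ n ih => exact ⟨hfc _ ih.1 ih.2, hfg _ ih.1 ih.2⟩
  have hstep : ∀ n, Step (S n) (S (n + 1)) := fun n => hfs _ (hS n).1 (hS n).2
  have hmono : Monotone S := monotone_nat_of_le_succ fun n => (hstep n).sub
  have hval : ∀ s x, x ∈ Val (⋃ n, S n) s → ∃ n, x ∈ Val (S n) s := by
    rintro s x ⟨d, hd, hs, hx⟩
    obtain ⟨n, hn⟩ := mem_iUnion.1 hd
    exact ⟨n, d, hn, hs, hx⟩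
  have hup : ∀ n s, Val (S n) s ⊆ Val (⋃ n, S n) s := fun n s => Val.mono (subset_iUnion S n) s
  have hle : ∀ m n s, m ≤ n → Val (S m) s ⊆ Val (S n) s := fun m n s h => Val.mono (hmono h) s
  refine ⟨⋃ n, S n, countable_iUnion fun n => (hS n).1, ?_, ?_⟩
  · intro d hd
    obtain ⟨n, hn⟩ := mem_iUnion.1 hd
    exact (hS n).2 d hn
  · refine ⟨Subset.rfl, fun s => hup 1 s ((hstep 0).one s), ?_, ?_, ?_, ?_, ?_, ?_⟩
    · intro s x y hx hy
      obtain ⟨m, hm⟩ := hval s x hx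
      obtain ⟨n, hn⟩ := hval s y hy
      exact hup (max m n + 1) s ((hstep (max m n)).add s x y (hle _ _ s (le_max_left m n) hm)
        (hle _ _ s (le_max_right m n) hn))
    · intro s x y hx hy
      obtain ⟨m, hm⟩ := hval s x hx
      obtain ⟨n, hn⟩ := hval s y hy
      exact hup (max m n + 1) s ((hstep (max m n)).mul s x y (hle _ _ s (le_max_left m n) hm)
        (hle _ _ s (le_max_right m n) hn))
    · intro s x hx h0
      obtain ⟨m, hm⟩ := hval s x hx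
      exact hup (m + 1) s ((hstep m).inv s x hm h0)
    · intro s x hx
      obtain ⟨m, hm⟩ := hval s x hx
      exact hup (m + 1) s ((hstep m).exp s x hm)
    · intro s w hs hx
      obtain ⟨m, hm⟩ := hval s _ hx
      exact hup (m + 1) s ((hstep m).log s w hs hm)
    · intro s p w hp h0 h1
      choose m hm using fun i => hval s _ (hp i)
      set M := (Finset.range (p.natDegree + 1)).sup m with hM
      refine hup (max M (m (p.natDegree + 1)) + 1) s ((hstep (max M (m (p.natDegree + 1)))).root s p w (fun i => ?_) h0 h1)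
      rcases Nat.lt_or_ge i (p.natDegree + 1) with h | h
      · refine hle _ _ s ?_ (hm i)
        exact (Finset.le_sup (f := m) (Finset.mem_range.2 h)).trans (le_max_left _ _)
      · have e1 : p.coeff i = 0 := Polynomial.coeff_eq_zero_of_natDegree_lt (by omega)
        have e2 : p.coeff (p.natDegree + 1) = 0 :=
          Polynomial.coeff_eq_zero_of_natDegree_lt (by omega)
        rw [e1, ← e2]
        exact hle _ _ s (le_max_right _ _) (hm _)

/-- The set of values at `s` is a subfield of `ℂ`. -/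
noncomputable def fld {G : Set Disc} (hG : Step G G) (s : ℂ) : Subfield ℂ where
  carrier := Val G s
  zero_mem' := by
    have := hG.add s 1 1 (hG.one s) (hG.one s)
    rwa [sub_self] at this
  one_mem' := hG.one s
  neg_mem' := by
    intro x hx
    have h0 := hG.add s 1 1 (hG.one s) (hG.one s)
    rw [sub_self] at h0
    have := hG.add s 0 x h0 hx
    rwa [zero_sub] at this
  add_mem' := by
    intro x y hx hy
    have h0 := hG.add s 1 1 (hG.one s) (hG.one s)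
    rw [sub_self] at h0
    have h1 := hG.add s 0 y h0 hy
    rw [zero_sub] at h1
    have h2 := hG.add s x (-y) hx h1
    rwa [sub_neg_eq_add] at h2
  mul_mem' := fun {x y} hx hy => hG.mul s x y hx hy
  inv_mem' := by
    intro x hx
    rcases eq_or_ne x 0 with h | h
    · rw [h, inv_zero, ← h]; exact hx
    · exact hG.inv s x hx h

lemma EL_subset {G : Set Disc} (hG : Step G G) {c : ℂ} (hc0 : c ≠ 0) (hc1 : c ≠ 1) (n : ℕ) :
    EL c n ⊆ Val G (Complex.log c) := by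
  have hs : Complex.log c ≠ 0 := by
    intro h
    apply hc1
    rw [← Complex.exp_log hc0, h, Complex.exp_zero]
  induction n with
  | zero =>
    rintro _ ⟨q, rfl⟩
    exact SubfieldClass.ratCast_mem (fld hG (Complex.log c)) q
  | succ n ih =>
    intro z hz
    set S : Set ℂ := EL c n ∪ {y | ∃ x ∈ EL c n, y = pw c x} ∪ {w | pw c w ∈ EL c n} with hS
    have hSs : S ⊆ Val G (Complex.log c) := by
      rintro y ((hy | ⟨x, hx, rfl⟩) | hy)
      · exact ih hy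
      · exact hG.exp _ x (ih hx)
      · exact hG.log _ y hs (ih hy)
    have hcl : Subfield.closure S ≤ fld hG (Complex.log c) := Subfield.closure_le.2 hSs
    have hz : IsAlgebraic (Subfield.closure S) z := hz
    have hint : IsIntegral (Subfield.closure S) z := hz.isIntegral
    have hsep : (minpoly (Subfield.closure S) z).Separable := (minpoly.irreducible hint).separable
    refine hG.root _ ((minpoly (Subfield.closure S) z).map (algebraMap _ ℂ)) z ?_ ?_ ?_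
    · intro i
      rw [Polynomial.coeff_map]
      exact hcl ((minpoly (Subfield.closure S) z).coeff i).2
    · rw [Polynomial.eval_map_algebraMap]
      exact minpoly.aeval _ z
    · rw [Polynomial.derivative_map, Polynomial.eval_map_algebraMap]
      exact hsep.aeval_derivative_ne_zero (minpoly.aeval _ z)

lemma Val_countable {G : Set Disc} (hG : G.Countable) (s : ℂ) : (Val G s).Countable := by
  refine (hG.image (fun d => d.2 s)).mono ?_
  rintro x ⟨d, hd, _, rfl⟩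
  exact mem_image_of_mem _ hd

lemma level_countable {d : Disc} (hd : GoodDisc d) {a : ℂ} (ha : ¬ EqOn d.2 (fun _ => a) d.1) :
    {s | s ∈ d.1 ∧ d.2 s = a}.Countable := by
  have hloc : ∀ s ∈ {s | s ∈ d.1 ∧ d.2 s = a}, ∃ U ∈ 𝓝 s, U ∩ {s | s ∈ d.1 ∧ d.2 s = a} ⊆ {s} := by
    rintro s ⟨hs, hsa⟩
    have han := hd.2.2 s hs
    rcases han.eventually_eq_or_eventually_ne (analyticAt_const (v := a)) with h | h
    · exfalso
      exact ha (hd.2.2.eqOn_of_preconnected_of_eventuallyEq analyticOnNhd_const hd.2.1 hs h)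
    · rw [eventually_nhdsWithin_iff] at h
      refine ⟨_, h, ?_⟩
      rintro t ⟨ht1, ht2, ht3⟩
      by_contra hne
      exact ht1 hne ht3
  choose! U hU hUs using hloc
  obtain ⟨t, ht, htc, hcov⟩ := TopologicalSpace.countable_cover_nhdsWithin
    (fun s hs => mem_nhdsWithin_of_mem_nhds (hU s hs))
  refine htc.mono fun s hs => ?_
  obtain ⟨w, hw, hsw⟩ := mem_iUnion₂.1 (hcov hs)
  have := hUs w (ht hw) ⟨hsw, hs⟩
  rw [mem_singleton_iff] at this
  rwa [this]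

lemma self_mem (a : ℂ) (ha : a ≠ 0) : a ∈ Tower a := by
  refine mem_iUnion.2 ⟨1, ?_⟩
  have h : a ∈ Subfield.closure (EL a 0 ∪ {y | ∃ x ∈ EL a 0, y = pw a x} ∪
      {w | pw a w ∈ EL a 0}) := by
    refine Subfield.subset_closure (Or.inl (Or.inr ⟨1, ⟨1, by simp⟩, ?_⟩))
    unfold pw
    rw [one_mul, Complex.exp_log ha]
  exact isAlgebraic_algebraMap (⟨a, h⟩ : Subfield.closure (EL a 0 ∪
    {y | ∃ x ∈ EL a 0, y = pw a x} ∪ {w | pw a w ∈ EL a 0}))

lemma exists_notMem {S : Set ℂ} (hS : S.Countable) : ∃ a, a ∉ S ∧ a ≠ 0 ∧ a ≠ 1 := by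
  have h : (S ∪ {0, 1}).Countable := hS.union (by simp)
  obtain ⟨a, ha⟩ := (ne_univ_iff_exists_notMem _).1 (show (S ∪ {0, 1}) ≠ univ by
    intro h1
    rw [h1] at h
    exact not_countable_complex h)
  simp only [mem_union, mem_insert_iff, mem_singleton_iff, not_or] at ha
  exact ⟨a, ha.1, ha.2.1, ha.2.2⟩

/-- Outside a countable set of `a`, for all `b` outside a countable set, no tower contains both
`a` and `b`. -/
theorem generic : ∃ E : Set ℂ, E.Countable ∧ ∀ a ∉ E, ∃ E' : Set ℂ, E'.Countable ∧ ∀ b ∉ E',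
    ∀ c : ℂ, c ≠ 0 → c ≠ 1 → ¬ (a ∈ Tower c ∧ b ∈ Tower c) := by
  obtain ⟨G, hGc, hGg, hG⟩ := exists_family
  refine ⟨{v | ∃ d ∈ G, d.1.Nonempty ∧ EqOn d.2 (fun _ => v) d.1}, ?_, ?_⟩
  · classical
    refine (hGc.image (fun d => if h : d.1.Nonempty then d.2 h.some else 0)).mono ?_
    rintro v ⟨d, hd, hne, heq⟩
    refine ⟨d, hd, ?_⟩
    simp only [dif_pos hne]
    exact heq hne.some_mem
  · intro a ha
    have hT : {s | a ∈ Val G s}.Countable := by
      have : {s | a ∈ Val G s} = ⋃ d ∈ G, {s | s ∈ d.1 ∧ d.2 s = a} := by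
        ext s
        simp only [Val, mem_ofPred_eq, mem_iUnion, exists_prop]
      rw [this]
      refine hGc.biUnion fun d hd => ?_
      rcases d.1.eq_empty_or_nonempty with h | h
      · simp [h]
      · exact level_countable (hGg d hd) (fun h1 => ha ⟨d, hd, h, h1⟩)
    refine ⟨⋃ s ∈ {s | a ∈ Val G s}, Val G s, hT.biUnion fun s _ => Val_countable hGc s, ?_⟩
    intro b hb c hc0 hc1 ⟨h1, h2⟩
    obtain ⟨m, hm⟩ := mem_iUnion.1 h1
    obtain ⟨n, hn⟩ := mem_iUnion.1 h2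
    exact hb (mem_biUnion (EL_subset hG hc0 hc1 m hm) (EL_subset hG hc0 hc1 n hn))

/-- There are bases `a, b` whose towers have no common upper bound among the towers. -/
theorem result : ∃ a b : ℂ, a ≠ 0 ∧ a ≠ 1 ∧ b ≠ 0 ∧ b ≠ 1 ∧
    ∀ c : ℂ, c ≠ 0 → c ≠ 1 → ¬ (Tower a ⊆ Tower c ∧ Tower b ⊆ Tower c) := by
  obtain ⟨E, hE, h⟩ := generic
  obtain ⟨a, haE, ha0, ha1⟩ := exists_notMem hE
  obtain ⟨E', hE', h'⟩ := h a haE
  obtain ⟨b, hbE, hb0, hb1⟩ := exists_notMem hE'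
  refine ⟨a, b, ha0, ha1, hb0, hb1, fun c hc0 hc1 ⟨h1, h2⟩ => ?_⟩
  exact h' b hbE c hc0 hc1 ⟨h1 (self_mem a ha0), h2 (self_mem b hb0)⟩

end Pool.Agent.Results.MP_21d915_nt.NoCommonTower
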